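import Mathlib

/-!
# The category of maps with an invariant bounded convex set: the case `C = X`

For a Banach space `X` and a closed affine subspace `C` of `X` (for instance `C = X`), the set of
nonexpansive self-maps of `C` with a nonempty closed convex bounded invariant set is either meager
or contains a dense open set.

Idea: these maps are exactly the maps with bounded orbits, a countable union of the closed sets
`E n` of maps whose orbit of a base point stays in the ball of radius `n`. If some `E n` has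
interior, it contains in its interior a strict contraction `f` with fixed point `p`. Any other
strict contraction `h` can be glued, far away from `p`, to a blown-up copy of `f`; after rescaling
the glued map is close to `f`, so the glued map is in the interior of some `E m`.
-/

namespace Pool.Agent.Results.MP_55f1f5_an.AffineZeroOne

open Filter Topology Set

/-- `N(C)`: the nonexpansive self-maps of `C`. -/
def Nonexp {X : Type*} [NormedAddCommGroup X] (C : Set X) : Type _ :=
  {f : C → C // ∀ x y : C, dist (f x) (f y) ≤ dist x y}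

/-- The topology of pointwise convergence on `N(C)`. -/
instance {X : Type*} [NormedAddCommGroup X] (C : Set X) : TopologicalSpace (Nonexp C) :=
  TopologicalSpace.induced (fun f : Nonexp C => (f.1 : C → C)) inferInstance

/-- `F(C)`: the maps `f` in `N(C)` for which there is a nonempty, closed, convex, bounded set
`K ⊆ C` with `f(K) ⊆ K`. -/
def InvSet {X : Type*} [NormedAddCommGroup X] [NormedSpace ℝ X] (C : Set X) : Set (Nonexp C) :=
  {f | ∃ K : Set X, K.Nonempty ∧ IsClosed K ∧ Convex ℝ K ∧ Bornology.IsBounded K ∧ K ⊆ C ∧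
    ∀ x : C, (x : X) ∈ K → (f.1 x : X) ∈ K}

variable {X : Type*} [NormedAddCommGroup X] {C : Set X}

theorem continuous_coe : Continuous (fun f : Nonexp C => (f.1 : C → C)) := continuous_induced_dom

theorem continuous_eval (x : C) : Continuous (fun f : Nonexp C => f.1 x) :=
  (continuous_apply x).comp continuous_coe

theorem tendsto_iff {ι : Type*} {l : Filter ι} {u : ι → Nonexp C} {f : Nonexp C} :
    Tendsto u l (𝓝 f) ↔ ∀ x : C, Tendsto (fun i => (u i).1 x) l (𝓝 (f.1 x)) := by
  rw [nhds_induced, tendsto_comap_iff, tendsto_pi_nhds]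
  rfl

/-- Joint continuity of evaluation. -/
theorem continuous_eval_comp {Z : Type*} [TopologicalSpace Z] {F : Z → Nonexp C} {u : Z → C}
    (hF : Continuous F) (hu : Continuous u) : Continuous (fun z => (F z).1 (u z)) := by
  rw [continuous_iff_continuousAt]
  intro z
  unfold ContinuousAt
  rw [tendsto_iff_dist_tendsto_zero]
  have h1 : Tendsto (fun w => dist (u w) (u z)) (𝓝 z) (𝓝 0) :=
    tendsto_iff_dist_tendsto_zero.mp (hu.tendsto z)
  have h2 : Tendsto (fun w => dist ((F w).1 (u z)) ((F z).1 (u z))) (𝓝 z) (𝓝 0) :=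
    tendsto_iff_dist_tendsto_zero.mp (((continuous_eval (u z)).comp hF).tendsto z)
  have h3 := h1.add h2
  rw [add_zero] at h3
  refine squeeze_zero (fun _ => dist_nonneg) (fun w => ?_) h3
  exact (dist_triangle _ ((F w).1 (u z)) _).trans (add_le_add ((F w).2 _ _) le_rfl)

theorem continuous_iter (n : ℕ) (x : C) : Continuous (fun f : Nonexp C => (f.1)^[n] x) := by
  induction n with
  | zero => exact continuous_const
  | succ n ih =>
    simp only [Function.iterate_succ_apply']
    exact continuous_eval_comp continuous_id ih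

theorem dist_iter_le (f : Nonexp C) (n : ℕ) (x y : C) :
    dist ((f.1)^[n] x) ((f.1)^[n] y) ≤ dist x y := by
  induction n with
  | zero => exact le_rfl
  | succ n ih =>
    simp only [Function.iterate_succ_apply']
    exact (f.2 _ _).trans ih

/-- maps whose orbit of `q` stays in the ball of radius `R` around `q` -/
def E (R : ℝ) (q : C) : Set (Nonexp C) := {f | ∀ n, dist ((f.1)^[n] q) q ≤ R}

theorem isClosed_E (R : ℝ) (q : C) : IsClosed (E R q) := by
  have : E R q = ⋂ n, (fun f : Nonexp C => dist ((f.1)^[n] q) q) ⁻¹' Iic R := by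
    ext f
    simp [E]
  rw [this]
  exact isClosed_iInter fun n =>
    isClosed_Iic.preimage ((continuous_iter n q).dist continuous_const)

theorem E_mono_base (R : ℝ) (q p : C) : E R q ⊆ E (R + 2 * dist p q) p := by
  intro f hf n
  calc dist ((f.1)^[n] p) p ≤ dist ((f.1)^[n] p) ((f.1)^[n] q) + dist ((f.1)^[n] q) q + dist q p :=
        dist_triangle4 _ _ _ _
    _ ≤ dist p q + R + dist p q := by
        rw [dist_comm q p]
        gcongr
        · exact dist_iter_le f n p q
        · exact hf n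
    _ = R + 2 * dist p q := by ring

variable [NormedSpace ℝ X]

theorem mem_InvSet_iff (hcl : IsClosed C) (hconv : Convex ℝ C) (q : C) (f : Nonexp C) :
    f ∈ InvSet C ↔ ∃ R : ℝ, f ∈ E R q := by
  constructor
  · rintro ⟨K, ⟨x, hx⟩, -, -, hb, hKC, hinv⟩
    obtain ⟨D, hD⟩ := Metric.isBounded_iff.mp hb
    let x' : C := ⟨x, hKC hx⟩
    have hmem : ∀ n, (((f.1)^[n] x' : C) : X) ∈ K := by
      intro n
      induction n with
      | zero => exact hx
      | succ n ih =>
        rw [Function.iterate_succ_apply']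
        exact hinv _ ih
    refine ⟨D + 2 * dist q x', E_mono_base D x' q ?_⟩
    intro n
    exact hD (hmem n) hx
  · rintro ⟨R, hf⟩
    refine ⟨{y | y ∈ C ∧ ∀ ε : ℝ, 0 < ε → ∀ᶠ n in atTop, dist (((f.1)^[n] q : C) : X) y ≤ R + ε},
      ⟨q, q.2, fun ε hε => Eventually.of_forall fun n => (hf n).trans (by linarith)⟩,
      ?_, ?_, ?_, fun y hy => hy.1, ?_⟩
    · apply isClosed_of_closure_subset
      intro y hy
      refine ⟨hcl.closure_subset_iff.mpr (fun z hz => hz.1) hy, fun ε hε => ?_⟩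
      obtain ⟨z, hz, hyz⟩ := Metric.mem_closure_iff.mp hy (ε / 2) (by positivity)
      filter_upwards [hz.2 (ε / 2) (by positivity)] with n hn
      calc dist (((f.1)^[n] q : C) : X) y ≤ dist (((f.1)^[n] q : C) : X) z + dist z y :=
            dist_triangle _ _ _
        _ ≤ (R + ε / 2) + ε / 2 := by
            rw [dist_comm z y]
            exact add_le_add hn hyz.le
        _ = R + ε := by ring
    · intro y hy z hz a b ha hb hab
      refine ⟨hconv hy.1 hz.1 ha hb hab, fun ε hε => ?_⟩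
      filter_upwards [hy.2 ε hε, hz.2 ε hε] with n hn1 hn2
      rw [dist_eq_norm] at hn1 hn2 ⊢
      have : (((f.1)^[n] q : C) : X) - (a • y + b • z) =
          a • ((((f.1)^[n] q : C) : X) - y) + b • ((((f.1)^[n] q : C) : X) - z) := by
        have h1 : (((f.1)^[n] q : C) : X) = (a + b) • (((f.1)^[n] q : C) : X) := by
          rw [hab, one_smul]
        conv_lhs => rw [h1]
        rw [add_smul, smul_sub, smul_sub]
        abel
      rw [this]
      calc ‖a • ((((f.1)^[n] q : C) : X) - y) + b • ((((f.1)^[n] q : C) : X) - z)‖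
          ≤ ‖a • ((((f.1)^[n] q : C) : X) - y)‖ + ‖b • ((((f.1)^[n] q : C) : X) - z)‖ :=
            norm_add_le _ _
        _ = a * ‖(((f.1)^[n] q : C) : X) - y‖ + b * ‖(((f.1)^[n] q : C) : X) - z‖ := by
            rw [norm_smul, norm_smul, Real.norm_of_nonneg ha, Real.norm_of_nonneg hb]
        _ ≤ a * (R + ε) + b * (R + ε) := by gcongr
        _ = R + ε := by rw [← add_mul, hab, one_mul]
    · rw [Metric.isBounded_iff_subset_closedBall (q : X)]
      refine ⟨R + 1 + R, fun y hy => ?_⟩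
      obtain ⟨n, hn⟩ := (hy.2 1 one_pos).exists
      rw [Metric.mem_closedBall]
      calc dist y (q : X) ≤ dist y (((f.1)^[n] q : C) : X) + dist (((f.1)^[n] q : C) : X) q :=
            dist_triangle _ _ _
        _ ≤ (R + 1) + R := by
            rw [dist_comm y]
            exact add_le_add hn (hf n)
    · intro x hx
      refine ⟨(f.1 x).2, fun ε hε => ?_⟩
      obtain ⟨N, hN⟩ := eventually_atTop.mp (hx.2 ε hε)
      refine eventually_atTop.mpr ⟨N + 1, fun n hn => ?_⟩
      obtain ⟨m, rfl⟩ : ∃ m, n = m + 1 := ⟨n - 1, by omega⟩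
      rw [Function.iterate_succ_apply']
      exact (f.2 _ _).trans (hN m (by omega))

/-- the map `x ↦ (1 - s) f x + s c` -/
def mix (hconv : Convex ℝ C) (f : Nonexp C) (c : C) (s : ℝ) (hs0 : 0 ≤ s) (hs1 : s ≤ 1) :
    Nonexp C :=
  ⟨fun x => ⟨(1 - s) • (f.1 x : X) + s • (c : X),
    hconv (f.1 x).2 c.2 (by linarith) hs0 (by ring)⟩, by
    intro x y
    have h : dist ((1 - s) • (f.1 x : X) + s • (c : X)) ((1 - s) • (f.1 y : X) + s • (c : X)) =
        (1 - s) * dist (f.1 x) (f.1 y) := by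
      rw [dist_add_right, dist_smul₀, Real.norm_of_nonneg (by linarith), Subtype.dist_eq]
    change dist ((1 - s) • (f.1 x : X) + s • (c : X)) ((1 - s) • (f.1 y : X) + s • (c : X)) ≤ _
    rw [h]
    calc (1 - s) * dist (f.1 x) (f.1 y) ≤ 1 * dist x y := by
          gcongr
          · linarith
          · exact f.2 x y
      _ = dist x y := one_mul _⟩

theorem mix_lip (hconv : Convex ℝ C) (f : Nonexp C) (c : C) (s : ℝ) (hs0 : 0 ≤ s) (hs1 : s ≤ 1)
    (x y : C) : dist ((mix hconv f c s hs0 hs1).1 x) ((mix hconv f c s hs0 hs1).1 y) ≤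
      (1 - s) * dist x y := by
  have h : dist ((1 - s) • (f.1 x : X) + s • (c : X)) ((1 - s) • (f.1 y : X) + s • (c : X)) =
      (1 - s) * dist (f.1 x) (f.1 y) := by
    rw [dist_add_right, dist_smul₀, Real.norm_of_nonneg (by linarith), Subtype.dist_eq]
  change dist ((1 - s) • (f.1 x : X) + s • (c : X)) ((1 - s) • (f.1 y : X) + s • (c : X)) ≤ _
  rw [h]
  exact mul_le_mul_of_nonneg_left (f.2 x y) (by linarith)

/-- strict contractions are dense, in the form of a sequence -/
theorem exists_strict (hconv : Convex ℝ C) (f : Nonexp C) (c : C) {W : Set (Nonexp C)}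
    (hW : W ∈ 𝓝 f) : ∃ g ∈ W, ∃ t : ℝ, 0 ≤ t ∧ t < 1 ∧ ∀ x y, dist (g.1 x) (g.1 y) ≤ t * dist x y := by
  have hn : ∀ n : ℕ, (0:ℝ) ≤ 1 / ((n:ℝ) + 1) ∧ 1 / ((n:ℝ) + 1) ≤ 1 := fun n =>
    ⟨by positivity, by rw [div_le_one (by positivity)]; linarith [Nat.cast_nonneg (α := ℝ) n]⟩
  have hT : Tendsto (fun n : ℕ => mix hconv f c (1 / ((n:ℝ) + 1)) (hn n).1 (hn n).2) atTop
      (𝓝 f) := by
    rw [tendsto_iff]
    intro x
    rw [tendsto_subtype_rng]
    have h0 : Tendsto (fun n : ℕ => 1 / ((n:ℝ) + 1)) atTop (𝓝 0) :=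
      tendsto_one_div_add_atTop_nhds_zero_nat
    have h1 : Tendsto (fun n : ℕ => (1 - 1 / ((n:ℝ) + 1)) • (f.1 x : X) +
        (1 / ((n:ℝ) + 1)) • (c : X)) atTop (𝓝 ((1 - 0 : ℝ) • (f.1 x : X) + (0:ℝ) • (c : X))) :=
      ((tendsto_const_nhds.sub h0).smul tendsto_const_nhds).add (h0.smul tendsto_const_nhds)
    rw [sub_zero, one_smul, zero_smul, add_zero] at h1
    exact h1
  obtain ⟨n, hnW⟩ := (hT.eventually hW).exists
  refine ⟨_, hnW, 1 - 1 / ((n:ℝ) + 1), by linarith [(hn n).2], ?_, mix_lip hconv f c _ _ _⟩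
  have : (0:ℝ) < 1 / ((n:ℝ) + 1) := by positivity
  linarith

omit [NormedSpace ℝ X] in
theorem exists_fixed [CompleteSpace X] (hcl : IsClosed C) (f : Nonexp C) (q : C) {t : ℝ}
    (ht0 : 0 ≤ t) (ht : t < 1) (hf : ∀ x y, dist (f.1 x) (f.1 y) ≤ t * dist x y) :
    ∃ p : C, f.1 p = p := by
  have : CompleteSpace C := hcl.completeSpace_coe
  have : Nonempty C := ⟨q⟩
  have hc : ContractingWith ⟨t, ht0⟩ f.1 :=
    ⟨by exact_mod_cast ht, LipschitzWith.of_dist_le_mul hf⟩
  exact ⟨_, hc.fixedPoint_isFixedPt⟩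

/-- `C` is an affine subspace -/
def IsAff (C : Set X) : Prop := ∀ x ∈ C, ∀ y ∈ C, ∀ r : ℝ, x + r • (y - x) ∈ C

theorem IsAff.convex (h : IsAff C) : Convex ℝ C := by
  intro x hx y hy a b ha hb hab
  have : a • x + b • y = x + b • (y - x) := by
    have : a = 1 - b := by linarith
    rw [this, smul_sub, sub_smul, one_smul]
    abel
  rw [this]
  exact h x hx y hy b

/-- the homothety with centre `p` and ratio `r` -/
def S (h : IsAff C) (p : C) (r : ℝ) (x : C) : C := ⟨(p : X) + r • ((x : X) - p), h _ p.2 _ x.2 r⟩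

theorem S_dist (h : IsAff C) (p : C) (r : ℝ) (x y : C) :
    dist (S h p r x) (S h p r y) = |r| * dist x y := by
  change dist ((p : X) + r • ((x : X) - p)) ((p : X) + r • ((y : X) - p)) = _
  rw [dist_add_left, dist_smul₀, Real.norm_eq_abs, dist_sub_right, Subtype.dist_eq]

theorem S_base (h : IsAff C) (p : C) (r : ℝ) : S h p r p = p := by
  apply Subtype.ext
  simp [S]

theorem S_comp (h : IsAff C) (p : C) (r s : ℝ) (x : C) : S h p r (S h p s x) = S h p (r * s) x := by
  apply Subtype.ext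
  simp [S, smul_smul]

theorem S_one (h : IsAff C) (p : C) (x : C) : S h p 1 x = x := by
  apply Subtype.ext
  simp [S]

theorem S_continuous (h : IsAff C) (p : C) (r : ℝ) : Continuous (S h p r) := by
  unfold S
  fun_prop

/-- conjugation of a nonexpansive map by a homothety -/
noncomputable def conj (h : IsAff C) (p : C) (r : ℝ) (hr : 0 < r) (f : Nonexp C) : Nonexp C :=
  ⟨fun x => S h p r (f.1 (S h p r⁻¹ x)), by
    intro x y
    rw [S_dist]
    calc |r| * dist (f.1 (S h p r⁻¹ x)) (f.1 (S h p r⁻¹ y))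
        ≤ |r| * dist (S h p r⁻¹ x) (S h p r⁻¹ y) := by
          gcongr
          exact f.2 _ _
      _ = dist x y := by
          rw [S_dist, ← mul_assoc, ← abs_mul, mul_inv_cancel₀ hr.ne', abs_one, one_mul]⟩

theorem conj_continuous (h : IsAff C) (p : C) (r : ℝ) (hr : 0 < r) :
    Continuous (conj h p r hr) := by
  rw [continuous_iff_continuousAt]
  intro f
  unfold ContinuousAt
  rw [tendsto_iff]
  intro x
  exact ((S_continuous h p r).tendsto _).comp ((continuous_eval (S h p r⁻¹ x)).tendsto f)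

theorem conj_iter (h : IsAff C) (p : C) (r : ℝ) (hr : 0 < r) (f : Nonexp C) (n : ℕ) :
    ((conj h p r hr f).1)^[n] p = S h p r ((f.1)^[n] p) := by
  induction n with
  | zero => simp [S_base]
  | succ n ih =>
    rw [Function.iterate_succ_apply', Function.iterate_succ_apply', ih]
    change S h p r (f.1 (S h p r⁻¹ (S h p r _))) = _
    rw [S_comp, inv_mul_cancel₀ hr.ne', S_one]

theorem conj_preimage (h : IsAff C) (p : C) (r : ℝ) (hr : 0 < r) (R : ℝ) :
    (conj h p r hr) ⁻¹' (E R p) ⊆ E (r⁻¹ * R) p := by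
  intro f hf n
  have h1 := hf n
  rw [conj_iter] at h1
  have h2 : dist (S h p r ((f.1)^[n] p)) (S h p r p) = r * dist ((f.1)^[n] p) p := by
    rw [S_dist, abs_of_pos hr]
  rw [S_base] at h2
  rw [h2] at h1
  calc dist ((f.1)^[n] p) p = r⁻¹ * (r * dist ((f.1)^[n] p) p) := by
        rw [← mul_assoc, inv_mul_cancel₀ hr.ne', one_mul]
    _ ≤ r⁻¹ * R := by
        exact mul_le_mul_of_nonneg_left h1 (by positivity)

/-- the logarithmic cut-off function of the distance -/
noncomputable def cut (η r0 r : ℝ) : ℝ :=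
  max 0 (min 1 (η * (Real.log (1 + r) - Real.log (1 + r0))))

theorem cut_nonneg (η r0 r : ℝ) : 0 ≤ cut η r0 r := le_max_left _ _

theorem cut_le_one (η r0 r : ℝ) : cut η r0 r ≤ 1 := max_le zero_le_one (min_le_left _ _)

theorem cut_eq_zero {η r0 r : ℝ} (hη : 0 ≤ η) (hr : 0 ≤ r) (h : r ≤ r0) : cut η r0 r = 0 := by
  unfold cut
  apply max_eq_left
  refine (min_le_right _ _).trans ?_
  have : Real.log (1 + r) ≤ Real.log (1 + r0) := Real.log_le_log (by linarith) (by linarith)
  exact mul_nonpos_of_nonneg_of_nonpos hη (by linarith)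

theorem cut_eq_one {η r0 : ℝ} (hη : 0 < η) : ∃ r1 : ℝ, ∀ r, r1 ≤ r → cut η r0 r = 1 := by
  have h : Tendsto (fun r : ℝ => η * (Real.log (1 + r) - Real.log (1 + r0))) atTop atTop := by
    apply Tendsto.const_mul_atTop hη
    apply tendsto_atTop_add_const_right
    exact Real.tendsto_log_atTop.comp (tendsto_atTop_add_const_left _ _ tendsto_id)
  obtain ⟨r1, hr1⟩ := (h.eventually_ge_atTop 1).exists_forall_of_atTop
  refine ⟨r1, fun r hr => ?_⟩
  unfold cut
  rw [min_eq_left (hr1 r hr)]
  norm_num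

theorem cut_diff {η r0 r r' : ℝ} (hη : 0 ≤ η) (hr' : 0 ≤ r') (h : r' ≤ r) :
    |cut η r0 r - cut η r0 r'| ≤ η * ((r - r') / (1 + r')) := by
  have h1 : |cut η r0 r - cut η r0 r'| ≤
      |η * (Real.log (1 + r) - Real.log (1 + r0)) - η * (Real.log (1 + r') - Real.log (1 + r0))| := by
    unfold cut
    refine (abs_max_sub_max_le_max _ _ _ _).trans ?_
    rw [sub_self, abs_zero, max_eq_right (abs_nonneg _)]
    refine (abs_min_sub_min_le_max _ _ _ _).trans ?_
    rw [sub_self, abs_zero, max_eq_right (abs_nonneg _)]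
  refine h1.trans ?_
  have h2 : η * (Real.log (1 + r) - Real.log (1 + r0)) - η * (Real.log (1 + r') - Real.log (1 + r0))
      = η * (Real.log (1 + r) - Real.log (1 + r')) := by ring
  have h3 : 0 ≤ Real.log (1 + r) - Real.log (1 + r') := by
    have := Real.log_le_log (show 0 < 1 + r' by linarith) (show 1 + r' ≤ 1 + r by linarith)
    linarith
  rw [h2, abs_of_nonneg (mul_nonneg hη h3)]
  apply mul_le_mul_of_nonneg_left _ hη
  rw [← Real.log_div (by linarith) (by linarith)]
  have h4 : (r - r') / (1 + r') = (1 + r) / (1 + r') - 1 := by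
    field_simp
    ring
  rw [h4]
  exact Real.log_le_sub_one_of_pos (by apply div_pos <;> linarith)

/-- the gluing of `h` near `p` and `f` far from `p` -/
theorem glue (hconv : Convex ℝ C) (p : C) (h f : Nonexp C) {t : ℝ} (ht0 : 0 ≤ t) (ht : t < 1)
    (hh : ∀ x y, dist (h.1 x) (h.1 y) ≤ t * dist x y)
    (hf : ∀ x y, dist (f.1 x) (f.1 y) ≤ t * dist x y) (hfp : f.1 p = p) (r0 : ℝ) :
    ∃ g : Nonexp C, ∀ x, ((g.1 x : C) : X) =
      (1 - cut ((1 - t) / (2 + dist (h.1 p) p)) r0 (dist x p)) • (h.1 x : X) +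
      cut ((1 - t) / (2 + dist (h.1 p) p)) r0 (dist x p) • (f.1 x : X) := by
  obtain ⟨H, hH⟩ : ∃ H, H = dist (h.1 p) p := ⟨_, rfl⟩
  rw [← hH]
  have hH0 : 0 ≤ H := hH ▸ dist_nonneg
  obtain ⟨η, hη⟩ : ∃ η, η = (1 - t) / (2 + H) := ⟨_, rfl⟩
  rw [← hη]
  have hη0 : 0 < η := by
    rw [hη]
    apply div_pos <;> linarith
  have hηt : t + η * (2 + H) = 1 := by
    rw [hη, div_mul_cancel₀ _ (by linarith : (2 + H) ≠ 0)]
    ring
  -- the key estimate for `dist y p ≤ dist x p`
  have key : ∀ x y : C, dist y p ≤ dist x p →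
      dist ((1 - cut η r0 (dist x p)) • (h.1 x : X) + cut η r0 (dist x p) • (f.1 x : X))
        ((1 - cut η r0 (dist y p)) • (h.1 y : X) + cut η r0 (dist y p) • (f.1 y : X)) ≤
        dist x y := by
    intro x y hxy
    obtain ⟨a, ha⟩ : ∃ a, a = cut η r0 (dist x p) := ⟨_, rfl⟩
    obtain ⟨b, hb⟩ : ∃ b, b = cut η r0 (dist y p) := ⟨_, rfl⟩
    rw [← ha, ← hb]
    have ha0 : 0 ≤ a := ha ▸ cut_nonneg _ _ _
    have ha1 : a ≤ 1 := ha ▸ cut_le_one _ _ _
    have hab : |a - b| ≤ η * ((dist x p - dist y p) / (1 + dist y p)) := by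
      rw [ha, hb]
      exact cut_diff hη0.le dist_nonneg hxy
    have hab2 : |a - b| ≤ η * (dist x y / (1 + dist y p)) := by
      refine hab.trans ?_
      gcongr
      linarith [dist_triangle x y p]
    have e : (1 - a) • (h.1 x : X) + a • (f.1 x : X) - ((1 - b) • (h.1 y : X) + b • (f.1 y : X)) =
        (1 - a) • ((h.1 x : X) - h.1 y) + a • ((f.1 x : X) - f.1 y) +
          (a - b) • ((f.1 y : X) - h.1 y) := by
      simp only [sub_smul, smul_sub, one_smul]
      abel
    have n1 : ‖(1 - a) • ((h.1 x : X) - h.1 y)‖ ≤ (1 - a) * (t * dist x y) := by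
      rw [norm_smul, Real.norm_of_nonneg (by linarith), ← dist_eq_norm]
      exact mul_le_mul_of_nonneg_left (hh x y) (by linarith)
    have n2 : ‖a • ((f.1 x : X) - f.1 y)‖ ≤ a * (t * dist x y) := by
      rw [norm_smul, Real.norm_of_nonneg ha0, ← dist_eq_norm]
      exact mul_le_mul_of_nonneg_left (hf x y) ha0
    have n3 : ‖(f.1 y : X) - h.1 y‖ ≤ (2 + H) * (1 + dist y p) := by
      rw [← dist_eq_norm]
      have h1 : dist (f.1 y : X) (h.1 y) ≤ dist (f.1 y : X) p + dist (p : X) (h.1 p) +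
          dist (h.1 p : X) (h.1 y) := dist_triangle4 _ _ _ _
      have h2 : dist (f.1 y : X) p ≤ t * dist y p := by
        have := hf y p
        rw [hfp] at this
        exact this
      have h3 : dist (p : X) (h.1 p) = H := by
        rw [hH, dist_comm]
        rfl
      have h4 : dist (h.1 p : X) (h.1 y) ≤ t * dist y p := by
        have := hh p y
        rw [dist_comm p y] at this
        exact this
      have h5 : t * dist y p ≤ dist y p := by
        have := mul_le_mul_of_nonneg_right ht.le (dist_nonneg (x := y) (y := p))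
        linarith
      have h6 : 0 ≤ dist y p := dist_nonneg
      nlinarith
    have n3' : ‖(a - b) • ((f.1 y : X) - h.1 y)‖ ≤ η * (2 + H) * dist x y := by
      rw [norm_smul, Real.norm_eq_abs]
      have h6 : 0 ≤ dist y p := dist_nonneg
      calc |a - b| * ‖(f.1 y : X) - h.1 y‖
          ≤ (η * (dist x y / (1 + dist y p))) * ((2 + H) * (1 + dist y p)) := by
            gcongr
        _ = η * (2 + H) * dist x y := by
            field_simp
    rw [dist_eq_norm, e]
    refine (norm_add₃_le).trans ?_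
    calc _ ≤ (1 - a) * (t * dist x y) + a * (t * dist x y) + η * (2 + H) * dist x y := by
          gcongr
      _ = (t + η * (2 + H)) * dist x y := by ring
      _ = dist x y := by rw [hηt, one_mul]
  refine ⟨⟨fun x => ⟨(1 - cut η r0 (dist x p)) • (h.1 x : X) + cut η r0 (dist x p) • (f.1 x : X),
    hconv (h.1 x).2 (f.1 x).2 (by linarith [cut_le_one η r0 (dist x p)]) (cut_nonneg _ _ _)
      (by ring)⟩, ?_⟩, fun x => rfl⟩
  intro x y
  change dist ((1 - cut η r0 (dist x p)) • (h.1 x : X) + cut η r0 (dist x p) • (f.1 x : X))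
        ((1 - cut η r0 (dist y p)) • (h.1 y : X) + cut η r0 (dist y p) • (f.1 y : X)) ≤ dist x y
  rcases le_total (dist y p) (dist x p) with hle | hle
  · exact key x y hle
  · rw [dist_comm, dist_comm x y]
    exact key y x hle

/-- Any strict contraction agrees near `p` with a map in the interior of some `E m p`. -/
theorem exists_mem_interior (hA : IsAff C) (p : C) (h f : Nonexp C) {t : ℝ} (ht0 : 0 ≤ t)
    (ht : t < 1) (hh : ∀ x y, dist (h.1 x) (h.1 y) ≤ t * dist x y)
    (hf : ∀ x y, dist (f.1 x) (f.1 y) ≤ t * dist x y) (hfp : f.1 p = p) {R : ℝ}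
    (hint : f ∈ interior (E R p)) (r0 : ℝ) :
    ∃ g : Nonexp C, (∀ x, dist x p ≤ r0 → g.1 x = h.1 x) ∧ ∃ R', g ∈ interior (E R' p) := by
  -- the blown-up copy of `f`
  have hn : ∀ n : ℕ, (0:ℝ) < (n:ℝ) + 1 := fun n => by positivity
  have hF : ∀ n : ℕ, (∀ x y, dist ((conj hA p ((n:ℝ) + 1) (hn n) f).1 x)
      ((conj hA p ((n:ℝ) + 1) (hn n) f).1 y) ≤ t * dist x y) := by
    intro n x y
    change dist (S hA p ((n:ℝ) + 1) (f.1 (S hA p ((n:ℝ) + 1)⁻¹ x)))
      (S hA p ((n:ℝ) + 1) (f.1 (S hA p ((n:ℝ) + 1)⁻¹ y))) ≤ _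
    rw [S_dist]
    calc |(n:ℝ) + 1| * dist (f.1 (S hA p ((n:ℝ) + 1)⁻¹ x)) (f.1 (S hA p ((n:ℝ) + 1)⁻¹ y))
        ≤ |(n:ℝ) + 1| * (t * dist (S hA p ((n:ℝ) + 1)⁻¹ x) (S hA p ((n:ℝ) + 1)⁻¹ y)) := by
          gcongr
          exact hf _ _
      _ = t * dist x y := by
          rw [S_dist, abs_inv]
          have : |(n:ℝ) + 1| ≠ 0 := by
            rw [abs_of_pos (hn n)]
            exact (hn n).ne'
          field_simp
  have hFp : ∀ n : ℕ, (conj hA p ((n:ℝ) + 1) (hn n) f).1 p = p := by
    intro n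
    change S hA p ((n:ℝ) + 1) (f.1 (S hA p ((n:ℝ) + 1)⁻¹ p)) = p
    rw [S_base, hfp, S_base]
  choose g hg using fun n : ℕ =>
    glue hA.convex p h (conj hA p ((n:ℝ) + 1) (hn n) f) ht0 ht hh (hF n) (hFp n) r0
  obtain ⟨η, hη⟩ : ∃ η, η = (1 - t) / (2 + dist (h.1 p) p) := ⟨_, rfl⟩
  rw [← hη] at hg
  have hη0 : 0 < η := by
    rw [hη]
    apply div_pos (by linarith)
    have : 0 ≤ dist (h.1 p) p := dist_nonneg
    linarith
  obtain ⟨r1, hr1⟩ := cut_eq_one (r0 := r0) hη0
  -- the rescaled maps converge to `f`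
  have hlim : Tendsto (fun n : ℕ => conj hA p ((n:ℝ) + 1)⁻¹ (inv_pos.mpr (hn n)) (g n)) atTop
      (𝓝 f) := by
    rw [tendsto_iff]
    intro x
    by_cases hx : x = p
    · subst hx
      rw [hfp]
      have h1 : ∀ n : ℕ, (conj hA x ((n:ℝ) + 1)⁻¹ (inv_pos.mpr (hn n)) (g n)).1 x =
          S hA x ((n:ℝ) + 1)⁻¹ ((g n).1 x) := by
        intro n
        change S hA x ((n:ℝ) + 1)⁻¹ ((g n).1 (S hA x ((n:ℝ) + 1)⁻¹⁻¹ x)) = _
        rw [S_base]
      simp only [h1]
      rw [tendsto_iff_dist_tendsto_zero]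
      have h2 : ∀ n : ℕ, dist (S hA x ((n:ℝ) + 1)⁻¹ ((g n).1 x)) x =
          ((n:ℝ) + 1)⁻¹ * dist ((g n).1 x) x := by
        intro n
        have := S_dist hA x ((n:ℝ) + 1)⁻¹ ((g n).1 x) x
        rw [S_base, abs_of_pos (inv_pos.mpr (hn n))] at this
        exact this
      simp only [h2]
      have h3 : ∀ n : ℕ, dist ((g n).1 x) x ≤ dist (h.1 x) x := by
        intro n
        have h4 : (((g n).1 x : C) : X) - x = (1 - cut η r0 (dist x x)) • ((h.1 x : X) - x) := by
          rw [hg n x, hFp n]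
          simp only [sub_smul, smul_sub, one_smul]
          abel
        change dist (((g n).1 x : C) : X) x ≤ dist (h.1 x : X) x
        rw [dist_eq_norm, h4, norm_smul, dist_eq_norm,
          Real.norm_of_nonneg (by linarith [cut_le_one η r0 (dist x x)])]
        calc (1 - cut η r0 (dist x x)) * ‖(h.1 x : X) - x‖ ≤ 1 * ‖(h.1 x : X) - x‖ := by
              gcongr
              linarith [cut_nonneg η r0 (dist x x)]
          _ = _ := one_mul _
      have h5 : Tendsto (fun n : ℕ => ((n:ℝ) + 1)⁻¹ * dist (h.1 x) x) atTop (𝓝 0) := by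
        have := (tendsto_one_div_add_atTop_nhds_zero_nat (𝕜 := ℝ)).mul_const (dist (h.1 x) x)
        simpa using this
      refine squeeze_zero (fun n => mul_nonneg (inv_pos.mpr (hn n)).le dist_nonneg)
        (fun n => ?_) h5
      exact mul_le_mul_of_nonneg_left (h3 n) (inv_pos.mpr (hn n)).le
    · have hd : 0 < dist x p := dist_pos.mpr hx
      apply tendsto_const_nhds.congr'
      have hlarge : ∀ᶠ n : ℕ in atTop, r1 / dist x p ≤ (n:ℝ) + 1 := by
        have : Tendsto (fun n : ℕ => (n:ℝ) + 1) atTop atTop :=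
          tendsto_atTop_add_const_right _ _ tendsto_natCast_atTop_atTop
        exact this.eventually_ge_atTop _
      filter_upwards [hlarge] with n hnl
      have h6 : dist (S hA p ((n:ℝ) + 1) x) p = ((n:ℝ) + 1) * dist x p := by
        have := S_dist hA p ((n:ℝ) + 1) x p
        rw [S_base, abs_of_pos (hn n)] at this
        exact this
      have h7 : r1 ≤ dist (S hA p ((n:ℝ) + 1) x) p := by
        rw [h6]
        rwa [div_le_iff₀ hd] at hnl
      have h8 : (g n).1 (S hA p ((n:ℝ) + 1) x) = S hA p ((n:ℝ) + 1) (f.1 x) := by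
        apply Subtype.ext
        rw [hg n, hr1 _ h7]
        change (1 - 1 : ℝ) • _ + (1:ℝ) • ((S hA p ((n:ℝ) + 1)
          (f.1 (S hA p ((n:ℝ) + 1)⁻¹ (S hA p ((n:ℝ) + 1) x))) : C) : X) = _
        rw [sub_self, zero_smul, zero_add, one_smul, S_comp, inv_mul_cancel₀ (hn n).ne', S_one]
      change f.1 x = S hA p ((n:ℝ) + 1)⁻¹ ((g n).1 (S hA p ((n:ℝ) + 1)⁻¹⁻¹ x))
      rw [inv_inv, h8, S_comp, inv_mul_cancel₀ (hn n).ne', S_one]
  obtain ⟨n, hnint⟩ := (hlim.eventually (isOpen_interior.mem_nhds hint)).exists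
  refine ⟨g n, ?_, (((n:ℝ) + 1)⁻¹)⁻¹ * R, ?_⟩
  · intro x hx
    apply Subtype.ext
    rw [hg n x, cut_eq_zero hη0.le dist_nonneg hx]
    simp
  · rw [mem_interior]
    refine ⟨(conj hA p ((n:ℝ) + 1)⁻¹ (inv_pos.mpr (hn n))) ⁻¹' interior (E R p), ?_,
      isOpen_interior.preimage (conj_continuous hA p _ _), hnint⟩
    exact (preimage_mono interior_subset).trans (conj_preimage hA p _ _ R)

/-- **Theorem.** Let `X` be a real Banach space and let `C` be a nonempty closed affine subspace of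
`X` (for example `C = X`). Then the set of nonexpansive self-maps of `C` with a nonempty closed
convex bounded invariant set is meager, or it contains a dense open set of `N(C)`. -/
theorem result (X : Type*) [NormedAddCommGroup X] [NormedSpace ℝ X] [CompleteSpace X]
    (C : Set X) (hne : C.Nonempty) (hcl : IsClosed C)
    (haff : ∀ x ∈ C, ∀ y ∈ C, ∀ r : ℝ, x + r • (y - x) ∈ C) :
    IsMeagre (InvSet C) ∨ ∃ U : Set (Nonexp C), U ⊆ InvSet C ∧ IsOpen U ∧ Dense U := by
  have hA : IsAff C := haff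
  obtain ⟨q, hq⟩ := hne
  let q' : C := ⟨q, hq⟩
  by_cases hcase : ∃ n : ℕ, (interior (E (n:ℝ) q')).Nonempty
  · right
    obtain ⟨n, f₀, hf₀⟩ := hcase
    obtain ⟨f, hf, t₁, ht₁0, ht₁, hft⟩ :=
      exists_strict hA.convex f₀ q' (isOpen_interior.mem_nhds hf₀)
    obtain ⟨p, hp⟩ := exists_fixed hcl f q' ht₁0 ht₁ hft
    have hfint : f ∈ interior (E ((n:ℝ) + 2 * dist p q') p) :=
      interior_mono (E_mono_base _ _ _) hf
    refine ⟨⋃ R : ℝ, interior (E R p), ?_, isOpen_iUnion fun R => isOpen_interior, ?_⟩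
    · intro g hg
      obtain ⟨R, hR⟩ := mem_iUnion.mp hg
      exact (mem_InvSet_iff hcl hA.convex p g).mpr ⟨R, interior_subset hR⟩
    · rw [dense_iff_inter_open]
      rintro W hWo ⟨h₀, hh₀⟩
      obtain ⟨h, hhW, t₂, ht₂0, ht₂, hht⟩ :=
        exists_strict hA.convex h₀ q' (hWo.mem_nhds hh₀)
      obtain ⟨t, ht⟩ : ∃ t, t = max t₁ t₂ := ⟨_, rfl⟩
      have ht0 : 0 ≤ t := ht ▸ le_max_of_le_left ht₁0
      have ht1 : t < 1 := ht ▸ max_lt ht₁ ht₂
      have hft' : ∀ x y, dist (f.1 x) (f.1 y) ≤ t * dist x y := fun x y =>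
        (hft x y).trans (mul_le_mul_of_nonneg_right (ht ▸ le_max_left _ _) dist_nonneg)
      have hht' : ∀ x y, dist (h.1 x) (h.1 y) ≤ t * dist x y := fun x y =>
        (hht x y).trans (mul_le_mul_of_nonneg_right (ht ▸ le_max_right _ _) dist_nonneg)
      choose g hg1 hg2 using fun m : ℕ =>
        exists_mem_interior hA p h f ht0 ht1 hht' hft' hp hfint (m:ℝ)
      have hlim : Tendsto g atTop (𝓝 h) := by
        rw [tendsto_iff]
        intro x
        apply tendsto_const_nhds.congr'
        filter_upwards [eventually_ge_atTop ⌈dist x p⌉₊] with m hm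
        exact (hg1 m x ((Nat.le_ceil _).trans (by exact_mod_cast hm))).symm
      obtain ⟨m, hm⟩ := (hlim.eventually (hWo.mem_nhds hhW)).exists
      exact ⟨g m, hm, mem_iUnion.mpr (hg2 m)⟩
  · left
    push Not at hcase
    have hsub : InvSet C ⊆ ⋃ n : ℕ, E (n:ℝ) q' := by
      intro f hf
      obtain ⟨R, hR⟩ := (mem_InvSet_iff hcl hA.convex q' f).mp hf
      obtain ⟨n, hn⟩ := exists_nat_ge R
      exact mem_iUnion.mpr ⟨n, fun k => (hR k).trans hn⟩
    refine IsMeagre.mono hsub (isMeagre_iUnion fun n => ?_)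
    apply IsNowhereDense.isMeagre
    unfold IsNowhereDense
    rw [(isClosed_E _ _).closure_eq]
    exact hcase n

end Pool.Agent.Results.MP_55f1f5_an.AffineZeroOne
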