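import Pool.Agent.P55f1f5.Trap
import Pool.Agent.P55f1f5.PartOne

/-!
# MP_55f1f5_an: the set of nonexpansive maps with an invariant bounded convex set can be neither
meager nor residual

The Banach space is `X = (ℝ ×_∞ (ℝ ×_1 ℝ^3)) ×_1 ℓ^1` with the maximum norm on `ℝ^3`, and `C` is the
set of all `(d, 7/8 d, k, s)` with `|d| ≤ 50`, `0 ≤ mean k ≤ 1/2`, `|k_i - mean k| ≤ 2`, `s ≥ 0` and
`‖s‖ ≥ mean k`.

* Maps with `‖f 0 - 4 e_0‖ < 1`: near every such map and for every `m` there is a map whose orbit of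
  `0` leaves the ball of radius `m` (file `PartOne`), so `F(C)` is meager in this open set.
* The maps near an explicit map `fU` at eight points all have a bounded orbit (file `Trap`): the
  three points `(2, -1, -1)` (and permutations) of `ℝ^3` have a centre of radius `3/2`, which is
  in `C` only in the presence of mass `1/2`, and their images `-13/16 (2, -1, -1)` have no centre of
  radius less than `13/8` in `C`.
-/

namespace Pool.Agent.Results.MP_55f1f5_an.Disproof

open Filter Topology Set Pool.Agent.P55f1f5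

/-- the open set in which `F(C)` is meager -/
def VV : Set (Nonexp CC) :=
  {f | dist ((f.1 ⟨mk 0 0 0, zero_mem⟩ : CC) : SpX) (mk 0 0 (lp.single 1 0 4)) < 1}

theorem isOpen_VV : IsOpen VV :=
  isOpen_lt ((continuous_subtype_val.comp (continuous_eval _)).dist continuous_const)
    continuous_const

theorem single_mem : mk 0 0 (lp.single 1 0 4) ∈ CC := by
  rw [mk_mem_iff]
  have : mu (0 : Fin 3 → ℝ) = 0 := by simp [mu]
  rw [this]
  refine ⟨by norm_num, le_rfl, by norm_num, fun i => by simp, fun i => ?_, norm_nonneg _⟩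
  rw [lp.single_apply]
  by_cases h : i = 0
  · subst h
    rw [Pi.single_eq_same]
    norm_num
  · rw [Pi.single_eq_of_ne h]

theorem nonempty_VV : VV.Nonempty := by
  refine ⟨⟨fun _ => ⟨mk 0 0 (lp.single 1 0 4), single_mem⟩, fun x y => ?_⟩, ?_⟩
  · rw [dist_self]
    exact dist_nonneg
  · change dist (mk 0 0 (lp.single 1 0 4)) (mk 0 0 (lp.single 1 0 4)) < 1
    rw [dist_self]
    norm_num

theorem isMeagre_VV : IsMeagre (VV ∩ InvSet CC) := by
  have h1 : VV ∩ InvSet CC ⊆ ⋃ m : ℕ, VV ∩ E (m : ℝ) ⟨mk 0 0 0, zero_mem⟩ := by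
    rintro f ⟨hfV, hfI⟩
    rw [mem_InvSet_iff isClosed_CC convex_CC ⟨mk 0 0 0, zero_mem⟩] at hfI
    obtain ⟨R, hR⟩ := hfI
    obtain ⟨m, hm⟩ := exists_nat_ge R
    rw [mem_iUnion]
    exact ⟨m, hfV, fun n => (hR n).trans hm⟩
  refine IsMeagre.mono h1 ?_
  refine isMeagre_iUnion fun m => ?_
  have hnd : IsNowhereDense (VV ∩ E (m : ℝ) ⟨mk 0 0 0, zero_mem⟩) := by
    unfold IsNowhereDense
    rw [eq_empty_iff_forall_notMem]
    intro f hf
    have hcl : closure (VV ∩ E (m : ℝ) ⟨mk 0 0 0, zero_mem⟩) ⊆ E (m : ℝ) ⟨mk 0 0 0, zero_mem⟩ :=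
      closure_minimal inter_subset_right (isClosed_E _ _)
    have h2 : interior (closure (VV ∩ E (m : ℝ) ⟨mk 0 0 0, zero_mem⟩)) ∈ 𝓝 f :=
      isOpen_interior.mem_nhds hf
    obtain ⟨f0, hf0, hf0V, -⟩ := mem_closure_iff_nhds.mp (interior_subset hf) _ h2
    obtain ⟨h, hh1, hh2⟩ := partOne m f0 hf0V _ (isOpen_interior.mem_nhds hf0)
    exact hh2 (hcl (interior_subset hh1))
  exact hnd.isMeagre

/-- There are a separable infinite-dimensional real Banach space `X` and a nonempty, closed, convex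
set `C ⊆ X` for which `F(C)` is neither meager nor residual (its complement is not meager). -/
theorem result : ∃ (X : Type) (_ : NormedAddCommGroup X) (_ : NormedSpace ℝ X),
    CompleteSpace X ∧ TopologicalSpace.SeparableSpace X ∧ ¬ FiniteDimensional ℝ X ∧
    ∃ C : Set X, C.Nonempty ∧ IsClosed C ∧ Convex ℝ C ∧
      ¬ IsMeagre (InvSet C) ∧ ¬ IsMeagre (InvSet C)ᶜ := by
  refine ⟨SpX, inferInstance, inferInstance, inferInstance, separable_SpX, not_finiteDimensional,
    CC, ⟨_, zero_mem⟩, isClosed_CC, convex_CC, ?_, ?_⟩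
  · have := separable_SpX
    have hB : BaireSpace (Nonexp CC) := baireSpace_nonexp isClosed_CC ⟨_, zero_mem⟩
    intro h
    exact not_isMeagre_of_isOpen isOpen_UU ⟨fU, fU_mem_UU⟩ (h.mono UU_subset)
  · have := separable_SpX
    have hB : BaireSpace (Nonexp CC) := baireSpace_nonexp isClosed_CC ⟨_, zero_mem⟩
    intro h
    refine not_isMeagre_of_isOpen isOpen_VV nonempty_VV ?_
    have h3 : VV ⊆ (InvSet CC)ᶜ ∪ (VV ∩ InvSet CC) := by
      intro f hf
      by_cases hI : f ∈ InvSet CC
      · exact Or.inr ⟨hf, hI⟩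
      · exact Or.inl hI
    exact (h.union isMeagre_VV).mono h3

end Pool.Agent.Results.MP_55f1f5_an.Disproof
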